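import Mathlib
import Pool.Agent.P.MP_9682d1_al.B3.Three
import Pool.Agent.P.MP_9682d1_al.G.Semi
import Pool.Agent.P.MP_9682d1_al.KB.S3f

set_option autoImplicit false

namespace Pool.Agent.P.MP_9682d1_al.T4

open Pool.Agent.P.MP_9682d1_al.C Pool.Agent.P.MP_9682d1_al.B3 Pool.Agent.P.MP_9682d1_al.G

variable {G : Type*} [Group G]

/-- a sandwich set whose span has no involution is good -/
theorem sand3 {Y : Set G} (h1 : Cj Y) (h2 : ∀ x ∈ Y, ∀ y ∈ Y, cm (cm x y) y = 1)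
    (h3 : ∀ x ∈ Subgroup.closure Y, x ^ 2 = 1 → x = 1) : Good Y := by
  refine ⟨h1, h2, cl3_of_key fun a ha b hb w hw s hs t ht => ?_⟩
  have k : ∀ p q : Subgroup.closure Y, (p : G) ∈ Y → (q : G) ∈ Y → ∀ x : Subgroup.closure Y,
      cm (cm (x⁻¹ * p * x) q) q = 1 :=
    fun p q hp hq x => Subtype.ext (h2 _ (h1 p hp x) q hq)
  let a' : Subgroup.closure Y := ⟨a, Subgroup.subset_closure ha⟩
  let b' : Subgroup.closure Y := ⟨b, Subgroup.subset_closure hb⟩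
  let w' : Subgroup.closure Y := ⟨w, Subgroup.subset_closure hw⟩
  obtain ⟨t1, t2, t3, t4, t5, t6, t7, t8, t9⟩ := KB.S3f.main a' b' w'
    (fun x hx => Subtype.ext (h3 x x.2 (congrArg Subtype.val hx)))
    (k a' a' ha ha) (k a' b' ha hb) (k a' w' ha hw) (k b' a' hb ha) (k b' b' hb hb)
    (k b' w' hb hw) (k w' a' hw ha) (k w' b' hw hb) (k w' w' hw hw)
  rcases hs with rfl | rfl | rfl <;> rcases ht with rfl | rfl | rfl
  exacts [congrArg Subtype.val t1, congrArg Subtype.val t2, congrArg Subtype.val t3,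
    congrArg Subtype.val t4, congrArg Subtype.val t5, congrArg Subtype.val t6,
    congrArg Subtype.val t7, congrArg Subtype.val t8, congrArg Subtype.val t9]

theorem P2_cj_zpow {u v : G} (h : P2 u v) (n : ℤ) :
    (v ^ n)⁻¹ * u * v ^ n = u * cm u v ^ n := by
  rcases n.eq_nat_or_neg with ⟨n, rfl | rfl⟩
  · simpa using P2.cj_pow h n
  · have e := P2.cj_pow h n
    have c : Commute (cm u v ^ n) (v ^ n) := h.2.pow_pow n n
    rw [zpow_neg, zpow_neg, zpow_natCast, zpow_natCast, inv_inv, eq_mul_inv_iff_mul_eq,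
      ← cj_of_comm c.inv_right]
    calc v ^ n * u * (v ^ n)⁻¹ * ((v ^ n)⁻¹⁻¹ * cm u v ^ n * (v ^ n)⁻¹)
        = v ^ n * (u * cm u v ^ n) * (v ^ n)⁻¹ := by group
      _ = u := by rw [← e]; group

theorem comm_of_eng {c z : G} (h : cm (cm c z) z = 1) : Commute z (c⁻¹ * z * c) := by
  rw [show c⁻¹ * z * c = z * (cm c z)⁻¹ by simp only [cm]; group]
  exact (Commute.refl z).mul_right (cm_eq_one.mp h).symm.inv_right

theorem eng_of_comm {c z : G} (h : Commute z (c⁻¹ * z * c)) : cm (cm c z) z = 1 := by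
  rw [cm_eq_one, show cm c z = (c⁻¹ * z * c)⁻¹ * z by simp only [cm]; group]
  exact h.symm.inv_left.mul_left (Commute.refl z)

theorem cube_eq {a z : G} (f1 : cm (cm a z) z = 1) (f2 : cm (cm (cm a z) a) a = 1)
    (f3 : cm (cm (cm a z) a) z = 1) :
    z ^ 3 = (a⁻¹ * z * a) ^ 3 * ((a * a)⁻¹ * z * (a * a))⁻¹ * (a * z * a⁻¹) := by
  rw [cm_eq_one] at f1 f2 f3
  have f4 : Commute (cm (cm a z) a) (cm a z) := comm_cm f2 f3
  have e1 : a⁻¹ * z * a = z * (cm a z)⁻¹ := by simp only [cm]; group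
  have e2 := cj_eq (cm a z) a
  have e3 := cj_of_comm f2
  generalize cm (cm a z) a = n at *
  generalize cm a z = m at *
  have e4 : (a * a)⁻¹ * z * (a * a) = z * m⁻¹ * (m * n)⁻¹ := by
    rw [show (a * a)⁻¹ * z * (a * a) = a⁻¹ * (a⁻¹ * z * a) * a by group, e1, ← e2]
    nth_rewrite 2 [← e1]
    group
  have e5 : a * z * a⁻¹ = z * m * n⁻¹ := by
    calc a * z * a⁻¹ = a * (z * m⁻¹ * (m * n) * n⁻¹) * a⁻¹ := by group
      _ = a * ((a⁻¹ * z * a) * (a⁻¹ * m * a) * (a⁻¹ * n * a)⁻¹) * a⁻¹ := by rw [e1, e2, e3]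
      _ = z * m * n⁻¹ := by group
  rw [e4, e5, e1, f1.symm.inv_right.mul_pow]
  calc z ^ 3 = z ^ 3 * m⁻¹ ^ 3 * (m * m * m * n) * n⁻¹ := by group
    _ = z ^ 3 * m⁻¹ ^ 3 * (m * n * m * m) * n⁻¹ := by
        rw [((f4.mul_right f4).mul_right f4).symm.eq, f4.symm.eq]; simp only [mul_assoc]
    _ = _ := by group

theorem p2_cj_of_cl3 {u v : G} (h : Cl3 ({u, v} : Set G)) : P2 v (u⁻¹ * v * u) := by
  have hu : u ∈ Subgroup.closure ({u, v} : Set G) := Subgroup.subset_closure (by simp)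
  have hv : v ∈ Subgroup.closure ({u, v} : Set G) := Subgroup.subset_closure (by simp)
  have e : cm v (u⁻¹ * v * u) = (cm (cm v u) v)⁻¹ := by
    rw [cj_eq, cm_mul_right, cm_self, cm_inv (cm v u) v]; simp
  rw [P2, e]
  exact ⟨(h.comm hv hu hv hv).inv_left,
    (h.comm hv hu hv (mul_mem (mul_mem (inv_mem hu) hv) hu)).inv_left⟩

/-- if pairs have class at most 3 and class 2 pairs commute then the set is trivial -/
theorem triv_of_p2 (hp : HP G = ⊥) {X : Set G} (cj : Cj X)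
    (cl : ∀ x ∈ X, ∀ y ∈ X, Cl3 ({x, y} : Set G))
    (h : ∀ x ∈ X, ∀ y ∈ X, P2 x y → cm x y = 1) : ∀ x ∈ X, x = 1 := by
  have k : ∀ u ∈ X, ∀ v ∈ X, Commute v (u⁻¹ * v * u) := fun u hu v hv =>
    cm_eq_one.mp (h v hv _ (cj v hv u) (p2_cj_of_cl3 (cl u hu v hv)))
  exact fun x hx => eq_one_of_comm hp cj (fun u hu v hv =>
    cm_eq_one.mp (h u hu v hv (p2_of_comm (k u hu v hv) (k v hv u hu)))) hx

theorem cm2_sub {X : Set G} : cm2 X ⊆ Subgroup.closure X := by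
  rintro _ ⟨u, hu, v, hv, -, rfl⟩
  exact cm_mem (Subgroup.subset_closure hu) (Subgroup.subset_closure hv)

/-- step 4 of the generic case -/
theorem lattice (hp : HP G = ⊥) {X : Set G} (cj : Cj X) (pw : ∀ x ∈ X, ∀ n : ℤ, x ^ n ∈ X)
    (cl : ∀ x ∈ X, ∀ y ∈ X, Cl3 ({x, y} : Set G))
    (tf : ∀ x ∈ Subgroup.closure X, x ^ 6 = 1 → x = 1)
    (F : ∀ a ∈ X, ∀ b ∈ X, P2 a b → ∀ c ∈ X, cm (cm c (cm a b)) (cm a b) = 1 ∧
      cm (cm (cm c (cm a b)) c) c = 1 ∧ cm (cm (cm c (cm a b)) c) (cm a b) = 1) :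
    ∀ x ∈ X, x = 1 := by
  have key : ∀ u ∈ cm2 X, ∀ z ∈ cm2 X, cm (cm (u ^ 6) (z ^ 6)) (z ^ 6) = 1 := by
    rintro _ ⟨a, ha, b, hb, p, rfl⟩ _ ⟨a', ha', b', hb', p', rfl⟩
    have F' := F a' ha' b' hb' p'
    have line : ∀ n : ℤ, a * cm a b ^ n ∈ X := fun n => by
      rw [← P2_cj_zpow p]; exact cj a ha _
    have au : Commute a (cm a b) := p.1.symm
    generalize cm a b = u at *
    generalize cm a' b' = z at *
    have c : ∀ {g : G}, g ∈ X → Commute z (g⁻¹ * z * g) := fun hg => comm_of_eng (F' _ hg).1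
    have c1 := c (line 6)
    have c2 := c (pw _ (line 3) 2)
    have c3 := c (pw _ (line (-6)) (-1))
    rw [(au.zpow_right 3).mul_zpow] at c2
    rw [(au.zpow_right (-6)).mul_zpow] at c3
    have e := cube_eq (F' a ha).1 (F' a ha).2.1 (F' a ha).2.2
    have c4 : Commute z ((u ^ 6)⁻¹ * z ^ 3 * u ^ 6) := by
      have := ((c1.pow_right 3).mul_right c2.inv_right).mul_right c3
      rw [B3.cj_pow] at this
      rw [e, B3.cj_pow]
      refine (congrArg (Commute z) ?_).mp this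
      group
    refine eng_of_comm ?_
    have := (c4.pow_right 2).pow_left 6
    rwa [B3.cj_pow, ← pow_mul] at this
  let Y : Set G := (fun e => e ^ 6) '' cm2 X
  have hY : Good Y := by
    refine sand3 ?_ ?_ fun x hx h => tf x ?_ (by rw [show 6 = 2 * 3 by rfl, pow_mul, h, one_pow])
    · rintro _ ⟨e, he, rfl⟩ g
      exact ⟨_, cm2_cj cj e he g, B3.cj_pow e g 6⟩
    · rintro _ ⟨u, hu, rfl⟩ _ ⟨z, hz, rfl⟩
      exact key u hu z hz
    · refine (Subgroup.closure_le _).mpr ?_ hx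
      rintro _ ⟨e, he, rfl⟩
      exact pow_mem (cm2_sub he) 6
  refine triv_of_p2 hp cj cl fun x hx y hy p => ?_
  have m : cm x y ∈ cm2 X := ⟨x, hx, y, hy, p, rfl⟩
  exact tf _ (cm2_sub m) (eq_one_of_good hp hY ⟨_, m, rfl⟩)

end Pool.Agent.P.MP_9682d1_al.T4
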