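import Mathlib
import Pool.Agent.P.MP_9682d1_al.T4.Lattice

set_option autoImplicit false

namespace Pool.Agent.P.MP_9682d1_al.T4

open Pool.Agent.P.MP_9682d1_al.C Pool.Agent.P.MP_9682d1_al.B3 Pool.Agent.P.MP_9682d1_al.G

variable {G : Type*} [Group G]

theorem comm_cj_inv {z g : G} (h : Commute z (g⁻¹ * z * g)) : Commute z (g⁻¹⁻¹ * z * g⁻¹) := by
  have := (comm_conj h g⁻¹).symm
  rwa [show g⁻¹⁻¹ * (g⁻¹ * z * g) * g⁻¹ = z by group] at this

/-- the norm trick in exponent 5 -/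
theorem norm5 (hp : HP G = ⊥) {X Z : Set G} (cj : Cj Z)
    (ex : ∀ x ∈ Subgroup.closure X, x ^ 5 = 1) (sub : Z ⊆ Subgroup.closure X)
    (line : ∀ u ∈ Z, ∃ s : G, Commute s u ∧ ∀ k : ℕ, s * u ^ k ∈ X)
    (F : ∀ z ∈ Z, ∀ c ∈ X, cm (cm c z) z = 1 ∧ cm (cm (c ^ 2) z) z = 1) : ∀ z ∈ Z, z = 1 := by
  have good : Good Z := by
    refine sand3 cj (fun u hu z hz => eng_of_comm ?_) fun x hx h => ?_
    · obtain ⟨s, su, l⟩ := line u hu
      have hs : s ∈ Subgroup.closure X := Subgroup.subset_closure (by simpa using l 0)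
      have s5 := ex s hs
      have u5 := ex u (sub hu)
      have c1 := comm_of_eng (F z hz _ (l 1)).1
      have c2 := comm_of_eng (F z hz _ (l 3)).2
      have c3 := comm_cj_inv (comm_of_eng (F z hz _ (l 2)).2)
      have c4 := comm_cj_inv (comm_of_eng (F z hz _ (l 4)).1)
      have i4 : (u ^ 4)⁻¹ = u := by
        rw [inv_eq_iff_mul_eq_one, ← pow_succ, u5]
      have j2 : (s ^ 2)⁻¹ = s ^ 3 := by
        rw [inv_eq_iff_mul_eq_one, ← pow_add, s5]
      have j1 : s⁻¹ = s ^ 4 := by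
        rw [inv_eq_iff_mul_eq_one, ← pow_succ', s5]
      rw [pow_one] at c1
      rw [(su.pow_right 3).mul_pow, ← pow_mul, show 3 * 2 = 5 + 1 by rfl, pow_add, u5, one_mul,
        pow_one] at c2
      rw [(su.pow_right 2).mul_pow, ← pow_mul, (su.pow_pow 2 (2 * 2)).eq, mul_inv_rev (u ^ _),
        i4, j2] at c3
      rw [(su.pow_right 4).eq, mul_inv_rev (u ^ _), i4, j1] at c4
      have n := ex (z * s⁻¹) (mul_mem (sub hz) (inv_mem hs))
      have e : z⁻¹ = s⁻¹ * z * s * ((s ^ 2)⁻¹ * z * s ^ 2) * ((s ^ 3)⁻¹ * z * s ^ 3) *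
          ((s ^ 4)⁻¹ * z * s ^ 4) := by
        rw [inv_eq_iff_mul_eq_one, ← mul_one (1 : G)]
        nth_rewrite 1 [← n]
        rw [← s5]
        simp only [pow_succ, pow_zero]
        group
      have := (((c1.mul_right c2).mul_right c3).mul_right c4).inv_right
      refine (congrArg (Commute z) ?_).mp this
      rw [← inv_inv (u⁻¹ * z * u), show (u⁻¹ * z * u)⁻¹ = u⁻¹ * z⁻¹ * u by group, e]
      group
    · have h5 := ex x ((Subgroup.closure_le _).mpr sub hx)
      rwa [show 5 = 2 * 2 + 1 by rfl, pow_succ, pow_mul, h, one_pow, one_mul] at h5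
  exact fun z hz => eq_one_of_good hp good hz

end Pool.Agent.P.MP_9682d1_al.T4
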